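import Pool.Agent.K1H49.PL.Def
import Pool.Agent.K1H1.PL.PFS

set_option autoImplicit false

/-! # Project PL: translation between formulas and systems (by helper7) -/

namespace Pool.Agent.K1H7.PL

open FirstOrder Pool.Agent.K1H49.PL Pool.Agent.K1H1.PL

universe u

theorem br_length (s : ℕ → Bool) (n : ℕ) : (br s n).length = n := by
  unfold br
  rw [List.length_ofFn]

theorem br_getElem (s : ℕ → Bool) (n i : ℕ) (h : i < (br s n).length) : (br s n)[i] = s i := by
  simp [br]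

theorem br_prefix (s : ℕ → Bool) {k n : ℕ} (h : k ≤ n) : br s k <+: br s n := by
  rw [List.prefix_iff_eq_take]
  apply List.ext_getElem
  · rw [List.length_take, br_length, br_length, min_eq_left h]
  · intro i h1 h2
    rw [List.getElem_take, br_getElem, br_getElem]

theorem prefix_br (σ τ : List Bool) (h : τ <+: σ) :
    τ = br (fun i => σ.getD i false) τ.length := by
  apply List.ext_getElem
  · rw [br_length]
  · intro i h1 h2
    have h3 : i < σ.length := lt_of_lt_of_le h1 h.length_le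
    rw [br_getElem, h.getElem h1]
    simp [List.getD_eq_getElem?_getD, List.getElem?_eq_getElem h3]

theorem t_TR1 : S_TR1.{u} := by
  intro L T M _ Y hY hmod hS
  obtain ⟨A, B, hA, hB, φ, ψ, a, hneg, hP, htree⟩ := hS
  refine ⟨A, B, hA, hB, fun x v => φ.Realize (Sum.elim x v), fun z v => ψ.Realize (Sum.elim v z),
    ?_, ?_, ?_, ?_⟩
  · refine (hY _).2 ⟨φ, ?_⟩
    ext v
    show φ.Realize (Sum.elim (v ∘ Sum.inl) (v ∘ Sum.inr)) ↔ φ.Realize v
    rw [Sum.elim_comp_inl_inr]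
  · refine (hY _).2 ⟨rl ψ Sum.swap, ?_⟩
    ext v
    show ψ.Realize (Sum.elim (v ∘ Sum.inr) (v ∘ Sum.inl)) ↔ (rl ψ Sum.swap).Realize v
    rw [rl_realize]
    have : v ∘ Sum.swap = Sum.elim (v ∘ Sum.inr) (v ∘ Sum.inl) := by
      funext x
      rcases x with x | x <;> rfl
    rw [this]
  · rintro x v z ⟨h1, h2, h3⟩
    exact hneg M hmod ⟨v, z, h2, x, h1, h3⟩
  · refine ⟨fun μ => a (μ ++ [true]), fun η => a η, ?_, ?_⟩
    · intro μ η h
      exact htree μ η h
    · intro σ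
      obtain ⟨x, hx⟩ := hP (fun i => σ.getD i false) σ.length
      have key : ∀ τ : List Bool, τ <+: σ → φ.Realize (Sum.elim x (a τ)) := by
        intro τ hτ
        have h1 := hx τ.length hτ.length_le
        rwa [← prefix_br σ τ hτ] at h1
      exact ⟨x, fun μ hμ => key _ hμ, fun η hη => key _ hη⟩

theorem t_TR2 (h : S_UNI.{u}) : S_TR2.{u} := by
  intro L T M _ Y hY hJ hM A B _ _ R P hR hP hS
  obtain ⟨φ, hφ⟩ := (hY _).1 hR
  obtain ⟨ψ, hψ⟩ := (hY _).1 hP
  have hφ' : ∀ (x : A → M) (b : B → M), R x b ↔ φ.Realize (Sum.elim x b) := by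
    intro x b
    have h1 : (Sum.elim x b : A ⊕ B → M) ∈ {v : A ⊕ B → M | R (v ∘ Sum.inl) (v ∘ Sum.inr)} ↔
        (Sum.elim x b : A ⊕ B → M) ∈ {v : A ⊕ B → M | φ.Realize v} := by rw [hφ]
    exact h1
  have hψ' : ∀ (b b' : B → M), P b b' ↔ ψ.Realize (Sum.elim b b') := by
    intro b b'
    have h1 : (Sum.elim b b' : B ⊕ B → M) ∈ {v : B ⊕ B → M | P (v ∘ Sum.inl) (v ∘ Sum.inr)} ↔
        (Sum.elim b b' : B ⊕ B → M) ∈ {v : B ⊕ B → M | ψ.Realize v} := by rw [hψ]
    exact h1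
  obtain ⟨h1, b, h2, h3⟩ := hS
  refine ⟨A, B, inferInstance, inferInstance, φ, ψ, b, ?_, ?_, ?_⟩
  · intro N _ hN
    rintro ⟨y₁, y₂, k1, x, k2, k3⟩
    have key := h T M hJ hM (α := A ⊕ (B ⊕ B)) (PF.and (rl ψ Sum.inr)
      (PF.and (rl φ (Sum.map id Sum.inl)) (rl φ (Sum.map id Sum.inr)))) (by
        intro v hv
        simp only [PF.Realize, rl_realize] at hv
        obtain ⟨m1, m2, m3⟩ := hv
        have e1 : v ∘ Sum.inr = Sum.elim (v ∘ Sum.inr ∘ Sum.inl) (v ∘ Sum.inr ∘ Sum.inr) := by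
          funext x
          rcases x with x | x <;> rfl
        have e2 : v ∘ Sum.map id Sum.inl = Sum.elim (v ∘ Sum.inl) (v ∘ Sum.inr ∘ Sum.inl) := by
          funext x
          rcases x with x | x <;> rfl
        have e3 : v ∘ Sum.map id Sum.inr = Sum.elim (v ∘ Sum.inl) (v ∘ Sum.inr ∘ Sum.inr) := by
          funext x
          rcases x with x | x <;> rfl
        rw [e1, ← hψ'] at m1
        rw [e2, ← hφ'] at m2
        rw [e3, ← hφ'] at m3
        exact h1 _ _ m1 ⟨_, m2, m3⟩) N hN (Sum.elim x (Sum.elim y₁ y₂))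
    apply key
    simp only [PF.Realize, rl_realize]
    refine ⟨k1, ?_, ?_⟩
    · have e2 : (Sum.elim x (Sum.elim y₁ y₂) : A ⊕ (B ⊕ B) → N) ∘ Sum.map id Sum.inl =
          Sum.elim x y₁ := by
        funext x
        rcases x with x | x <;> rfl
      rw [e2]
      exact k2
    · have e3 : (Sum.elim x (Sum.elim y₁ y₂) : A ⊕ (B ⊕ B) → N) ∘ Sum.map id Sum.inr =
          Sum.elim x y₂ := by
        funext x
        rcases x with x | x <;> rfl
      rw [e3]
      exact k3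
  · intro σ n
    obtain ⟨w, hw⟩ := h2 (br σ n)
    refine ⟨w, fun k hk => ?_⟩
    rw [← hφ']
    exact hw _ (br_prefix σ hk)
  · intro μ η k1 k2
    rw [← hψ']
    exact h3 μ η ⟨k1, k2⟩

end Pool.Agent.K1H7.PL
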